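import Pool.Agent.Q286.IX.Stm2
import Pool.Agent.Q211.IX.Idx

set_option autoImplicit false
set_option linter.unusedVariables false

/-! # Project IX, job IDXD: the index theorem for a class of functions -/

open Filter Topology Finset MeasureTheory
open scoped ComplexConjugate

namespace Pool.Agent.Q68.IX

open Pool.Agent.Q286.EW Pool.Agent.Q286.IX Pool.Agent.Q211.IX

/-- IDXD -/
theorem idxD : S_IdxD := by
  intro D hD hE L
  have hm : 0 < L.m := L.raw.hm
  have hm' : (0 : ℝ) < L.m := by exact_mod_cast hm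
  set c : ℝ := Real.exp (Y23.G.kp (L := L) - 1) / 2 with hc
  have hc0 : 0 < c := by positivity
  have hc1 : c < Real.exp (Y23.G.kp (L := L) - 1) := by
    rw [hc]
    linarith [Real.exp_pos (Y23.G.kp (L := L) - 1)]
  obtain ⟨C, κ, A, B, hC, hκ, hA1, hEff⟩ := hE c hc1
  refine ⟨C, hC, fun ω hω k => ⟨fun hM a ha => ?_, fun hW p hp => ?_⟩⟩
  · -- the linear forms
    let S : Set ℂ := {w | L.X (1 / 2 + w) = 0 ∧ (ω (1 / 2 + w) < 0 ∨ (0 < ω (1 / 2 + w) ∧ w.re ≠ 0))}
    obtain ⟨q, hq⟩ := cover ((fun w : ℂ => ((|w.re|, w.im) : ℝ × ℝ)) '' S) k (by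
      intro p hp
      choose w hw hwp using hp
      obtain ⟨i, j, hij, h⟩ := hM w hw
      refine ⟨i, j, hij, ?_⟩
      rw [← hwp i, ← hwp j]
      rcases h with h | h
      · simp only [h]
      · simp only [h]
        simp)
    choose l hl using fun i : Fin k => ext_TT a (⟨(q i).1, (q i).2⟩ : ℂ)
    refine ⟨l, fun ν f hf hlf => ?_⟩
    have hT : ∀ i : Fin k, Y23.TT f (⟨(q i).1, (q i).2⟩ : ℂ) = 0 := by
      intro i
      rw [← hl i f (hD.sub ha hf).1]
      exact hlf i
    have hbad : ∀ w ∈ S, Y23.G.GG f f w = 0 := by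
      intro w hw
      obtain ⟨i, hi⟩ := hq (Set.mem_image_of_mem (fun w : ℂ => ((|w.re|, w.im) : ℝ × ℝ)) hw)
      have h1 := hT i
      rw [hi] at h1
      unfold Y23.G.GG
      rcases le_total 0 w.re with h2 | h2
      · have h3 : (⟨(|w.re|, w.im).1, (|w.re|, w.im).2⟩ : ℂ) = w := by
          apply Complex.ext
          · exact abs_of_nonneg h2
          · rfl
        simp only at h1 h3
        rw [h3] at h1
        rw [h1, zero_mul]
      · have h3 : (⟨(|w.re|, w.im).1, (|w.re|, w.im).2⟩ : ℂ) = -conj w := by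
          apply Complex.ext
          · simpa using h2
          · simp
        simp only at h1 h3
        rw [h3] at h1
        rw [h1, map_zero, mul_zero]
    unfold QS
    refine tsum_nonneg fun ρ => ?_
    have hρ : L.X (1 / 2 + ((ρ : ℂ) - 1 / 2)) = 0 := by
      have : (1 / 2 + ((ρ : ℂ) - 1 / 2)) = (ρ : ℂ) := by ring
      rw [this]
      exact ρ.2
    have hρ' : ω (1 / 2 + ((ρ : ℂ) - 1 / 2)) = ω (ρ : ℂ) := by
      congr 1
      ring
    rcases lt_trichotomy (ω (ρ : ℂ)) 0 with h | h | h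
    · rw [hbad _ ⟨hρ, Or.inl (by rw [hρ']; exact h)⟩]
      simp
    · rw [h]
      simp
    · by_cases hre : ((ρ : ℂ) - 1 / 2).re = 0
      · have h1 : -conj ((ρ : ℂ) - 1 / 2) = (ρ : ℂ) - 1 / 2 := by
          apply Complex.ext
          · rw [Complex.neg_re, Complex.conj_re, hre, neg_zero]
          · rw [Complex.neg_im, Complex.conj_im, neg_neg]
        have h2 : 0 ≤ (Y23.G.GG f f ((ρ : ℂ) - 1 / 2)).re := by
          unfold Y23.G.GG
          rw [h1, Complex.mul_conj]
          rw [Complex.ofReal_re]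
          exact Complex.normSq_nonneg _
        have h3 : (0 : ℝ) ≤ (ω (ρ : ℂ) : ℝ) := by exact_mod_cast h.le
        exact mul_nonneg h3 h2
      · rw [hbad _ ⟨hρ, Or.inr ⟨by rw [hρ']; exact h, hre⟩⟩]
        simp
  · -- the bad points
    by_contra hcon
    push Not at hcon
    choose d hd hbad using fun j : Fin (k + 1) => bad_of (L := L) ω (p j) (hp j)
    obtain ⟨δ1, hδ1, hδ1'⟩ := exists_low d hd
    obtain ⟨δ2, hδ2, hδ2'⟩ := exists_low (ι := {x : Fin (k + 1) × Fin (k + 1) // x.1 ≠ x.2})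
      (fun x => ‖p x.1.1 - p x.1.2‖) (fun x => by
        rw [norm_pos_iff, sub_ne_zero]
        exact (hcon x.1.1 x.1.2 x.2).1)
    obtain ⟨δ3, hδ3, hδ3'⟩ := exists_low (ι := {x : Fin (k + 1) × Fin (k + 1) // x.1 ≠ x.2})
      (fun x => ‖p x.1.1 + conj (p x.1.2)‖) (fun x => by
        rw [norm_pos_iff]
        intro h
        exact (hcon x.1.1 x.1.2 x.2).2 (eq_neg_of_add_eq_zero_left h))
    set δ0 : ℝ := min δ1 (min (δ2 / 3) (δ3 / 3)) with hδ0
    have hδ0p : 0 < δ0 := lt_min hδ1 (lt_min (by positivity) (by positivity))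
    set B' : ℝ := max (max B (-Real.log δ0 / κ)) 1 with hB'
    have hB'1 : 1 ≤ B' := le_max_right _ _
    have hB'B : B ≤ B' := (le_max_left _ _).trans (le_max_left _ _)
    have hB'δ : Real.exp (-(κ * B')) ≤ δ0 := by
      rw [← Real.le_log_iff_exp_le hδ0p]
      have h1 : -Real.log δ0 / κ ≤ B' := (le_max_right _ _).trans (le_max_left _ _)
      rw [div_le_iff₀ hκ] at h1
      linarith
    have ht : Tendsto (fun a : ℝ => Real.exp (2 * a / L.m)) atTop atTop := by
      refine Real.tendsto_exp_atTop.comp ?_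
      have : Tendsto (fun a : ℝ => 2 / (L.m : ℝ) * a) atTop atTop :=
        tendsto_id.const_mul_atTop (by positivity)
      refine this.congr fun a => ?_
      ring
    have ht2 : Tendsto (fun a : ℝ => Real.exp (κ * (B' * a))) atTop atTop := by
      refine Real.tendsto_exp_atTop.comp ?_
      have : Tendsto (fun a : ℝ => κ * B' * a) atTop atTop :=
        tendsto_id.const_mul_atTop (by positivity)
      refine this.congr fun a => ?_
      ring
    have hev : ∀ᶠ a : ℝ in atTop, A ≤ a ∧ 1 ≤ a ∧ B' * (L.m : ℝ) ^ 2 / 2 ≤ a ∧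
        (∀ j, |(p j).im| ≤ c * Real.exp (2 * a / L.m)) ∧ (k : ℝ) ≤ Real.exp (κ * (B' * a)) := by
      refine (eventually_ge_atTop A).and ((eventually_ge_atTop 1).and ((eventually_ge_atTop _).and
        ((eventually_all.2 fun j => ?_).and (ht2.eventually_ge_atTop _))))
      exact (ht.const_mul_atTop hc0).eventually_ge_atTop _
    obtain ⟨A', hA'⟩ := hev.exists_forall_of_atTop
    obtain ⟨a, ν, l, haA, hν, hf⟩ := hW B' A'
    obtain ⟨h1, h2, h3, h4, h5⟩ := hA' a haA
    have ha0 : 0 < a := by linarith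
    have hY : B' * a ≤ Real.exp (2 * a / L.m) := by
      have h6 := Real.quadratic_le_exp_of_nonneg (x := 2 * a / L.m) (by positivity)
      have h7 : B' * a ≤ (2 * a / L.m) ^ 2 / 2 := by
        rw [div_pow, div_div, le_div_iff₀ (by positivity)]
        have h8 : B' * (L.m : ℝ) ^ 2 ≤ 2 * a := by linarith
        calc B' * a * ((L.m : ℝ) ^ 2 * 2) = (B' * (L.m : ℝ) ^ 2) * (2 * a) := by ring
          _ ≤ (2 * a) * (2 * a) := mul_le_mul_of_nonneg_right h8 (by positivity)
          _ = (2 * a) ^ 2 := by ring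
      have h8 : 0 ≤ 2 * a / (L.m : ℝ) := by positivity
      linarith
    have hκa : κ * (B' * a) / a = κ * B' := by
      field_simp
    obtain ⟨i, j, hij, h⟩ := hEff a (B' * a) ν ω k l h1 (mul_le_mul_of_nonneg_right hB'B ha0.le) hY hν h5 hω hf p
      (fun j => ⟨hbad j _ (by rw [hκa]; exact (hB'δ.trans (min_le_left _ _)).trans (hδ1' j)), h4 j⟩)
    rw [hκa] at h
    have h6 : δ0 ≤ δ2 / 3 := (min_le_right _ _).trans (min_le_left _ _)
    have h7 : δ0 ≤ δ3 / 3 := (min_le_right _ _).trans (min_le_right _ _)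
    rcases h with h | h
    · have h8 := hδ2' ⟨(i, j), hij⟩
      simp only at h8
      linarith
    · have h8 := hδ3' ⟨(i, j), hij⟩
      simp only at h8
      linarith

end Pool.Agent.Q68.IX
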